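import Pool.Agent.X287.MTAl

/-!
# MP_b8c61a_co, Q1: the reverse-and-duplicate identity for the monotone triangle polynomial

`α(n + k; 1, …, i-1, i+k-1, i+k-1, …, i, i, i+k, …, n) = A_n` for all `n`, `k`, `i`.
-/

namespace Pool.Agent.Results.MP_b8c61a_co.ReverseDuplicate

open MvPolynomial Pool.Agent.X144.MT Pool.Agent.X287.MTRing Pool.Agent.X287.MTFun
  Pool.Agent.X287.MTAl

/-- The entry number `t` (counted from `0`) of the sequence obtained from `1, 2, ..., n` by
reversing the block `i, i+1, ..., i+k-1` and repeating each of its entries twice. -/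
def sig (k i t : ℕ) : ℤ :=
  if t + 1 < i then (t : ℤ) + 1
  else if t + 1 < i + 2 * k then (i : ℤ) + k - 1 - ((t + 1 - i) / 2 : ℕ)
  else (t : ℤ) + 1 - k

theorem inc_length (p : ℤ) (m : ℕ) : (inc p m).length = m := by
  induction m generalizing p with
  | zero => rfl
  | succ m ih => simp [inc, ih]

theorem inc_getElem (m : ℕ) : ∀ (p : ℤ) (t : ℕ) (h : t < (inc p m).length),
    (inc p m)[t] = p + t := by
  induction m with
  | zero => intro p t h; simp [inc] at h
  | succ m ih =>
    intro p t h
    cases t with
    | zero => simp [inc]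
    | succ t =>
      simp only [inc, List.getElem_cons_succ]
      rw [ih]
      push_cast; ring

theorem omL_getElem (k : ℕ) : ∀ (p : ℤ) (t : ℕ) (h : t < (omL p k).length),
    (omL p k)[t] = p + k - 1 - (t / 2 : ℕ) := by
  induction k with
  | zero => intro p t h; simp [omL] at h
  | succ k ih =>
    intro p t h
    match t, h with
    | 0, h => simp [omL]; ring
    | 1, h => simp [omL]; ring
    | t + 2, h =>
      simp only [omL, List.getElem_cons_succ]
      rw [ih]
      have : (t + 2) / 2 = t / 2 + 1 := by omega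
      rw [this]
      push_cast; ring

theorem ofFn_sig (i k r : ℕ) :
    List.ofFn (fun t : Fin (i + k + r + k) => sig k (i + 1) t) = sigma i k r := by
  apply List.ext_getElem
  · simp [sigma, inc_length, omL_length]; ring
  · intro t h1 h2
    rw [List.getElem_ofFn]
    simp only [List.length_ofFn] at h1
    simp only [sigma]
    by_cases ht : t < i
    · rw [List.getElem_append_left (by rw [inc_length]; exact ht), inc_getElem]
      simp only [sig]
      rw [if_pos (by omega)]
      ring
    · rw [List.getElem_append_right (by rw [inc_length]; omega)]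
      obtain ⟨s, rfl⟩ := Nat.exists_eq_add_of_le (not_lt.1 ht)
      simp only [inc_length, Nat.add_sub_cancel_left, sig]
      rw [if_neg (by omega)]
      by_cases hs : s < 2 * k
      · rw [List.getElem_append_left (by rw [omL_length]; exact hs), omL_getElem, if_pos (by omega)]
        have : i + s + 1 - (i + 1) = s := by omega
        rw [this]
        push_cast; ring
      · rw [List.getElem_append_right (by rw [omL_length]; omega), inc_getElem, if_neg (by omega)]
        simp only [omL_length]
        rw [Nat.cast_sub (by omega)]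
        push_cast; ring

theorem ofFn_inc (n : ℕ) : List.ofFn (fun t : Fin n => ((t : ℕ) : ℤ) + 1) = inc 1 n := by
  apply List.ext_getElem
  · simp [inc_length]
  · intro t h1 h2
    rw [List.getElem_ofFn, inc_getElem]
    simp only
    ring

theorem inc_eq_iv (m : ℕ) : ∀ p : ℤ, inc p m = iv p m := by
  induction m with
  | zero => intro p; rfl
  | succ m ih => intro p; rw [inc, iv, ih]

/-- **Main result.**  For every `n ≥ 1` there is exactly one polynomial that counts the monotone
triangles with a given strictly increasing bottom row of length `n`; and for all `n ≥ 1`,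
`1 ≤ k ≤ n` and `1 ≤ i ≤ n - k + 1` the value of the polynomial for rows of length `n + k` at the
row obtained from `1, 2, ..., n` by reversing the block `i, ..., i+k-1` and repeating each of its
entries twice is the value of the polynomial for rows of length `n` at `1, 2, ..., n`, that is,
the number of alternating sign matrices of size `n`. -/
theorem result :
    (∀ n : ℕ, ∃! P : MvPolynomial (Fin (n + 1)) ℚ, IsAlpha P) ∧
    ∀ (n k i : ℕ), 1 ≤ n → 1 ≤ k → k ≤ n → 1 ≤ i → i ≤ n - k + 1 →
      ∀ (P : MvPolynomial (Fin n) ℚ) (Q : MvPolynomial (Fin (n + k)) ℚ),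
        IsAlpha P → IsAlpha Q →
        eval (fun t : Fin (n + k) => (sig k i t : ℚ)) Q
          = eval (fun t : Fin n => ((t : ℕ) : ℚ) + 1) P ∧
        eval (fun t : Fin (n + k) => (sig k i t : ℚ)) Q = numASM n := by
  refine ⟨existsUnique_alpha, ?_⟩
  intro n k i hn hk hkn hi hik P Q hP hQ
  obtain ⟨j, rfl⟩ : ∃ j, i = j + 1 := ⟨i - 1, by omega⟩
  obtain ⟨r, rfl⟩ : ∃ r, n = j + k + r := ⟨n - j - k, by omega⟩
  have key := F_sigma j k r
  -- the left side
  have hQ' : eval (fun t : Fin (j + k + r + k) => (sig k (j + 1) t : ℚ)) Q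
      = (F (sigma j k r) : ℚ) := by
    obtain ⟨N, hN⟩ : ∃ N, j + k + r + k = N + 1 := ⟨j + k + r + k - 1, by omega⟩
    have gen : ∀ (m : ℕ) (_ : m = N + 1) (Q : MvPolynomial (Fin m) ℚ) (_ : IsAlpha Q),
        eval (fun t : Fin m => (sig k (j + 1) t : ℚ)) Q
          = (F (List.ofFn (fun t : Fin m => sig k (j + 1) t)) : ℚ) := by
      intro m hm Q hQ
      subst hm
      rw [hQ.eval_eq (fun t => sig k (j + 1) t), F, List.length_ofFn]
    rw [gen _ hN Q hQ, ofFn_sig]
  have hP' : eval (fun t : Fin (j + k + r) => ((t : ℕ) : ℚ) + 1) P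
      = (F (inc 1 (j + k + r)) : ℚ) := by
    obtain ⟨N, hN⟩ : ∃ N, j + k + r = N + 1 := ⟨j + k + r - 1, by omega⟩
    have gen : ∀ (m : ℕ) (_ : m = N + 1) (P : MvPolynomial (Fin m) ℚ) (_ : IsAlpha P),
        eval (fun t : Fin m => ((t : ℕ) : ℚ) + 1) P
          = (F (List.ofFn (fun t : Fin m => ((t : ℕ) : ℤ) + 1)) : ℚ) := by
      intro m hm P hP
      subst hm
      have e := hP.eval_eq (fun t => ((t : ℕ) : ℤ) + 1)
      push_cast at e
      rw [e, F, List.length_ofFn]
    rw [gen _ hN P hP, ofFn_inc]
  have hA : (F (inc 1 (j + k + r)) : ℚ) = numASM (j + k + r) := by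
    have h := ncard_ASM (j + k + r)
    rw [F, inc_length, inc_eq_iv]
    change ((An (j + k + r) : ℤ) : ℚ) = _
    rw [← h]
    rfl
  exact ⟨by rw [hQ', hP', key], by rw [hQ', key, hA]⟩

end Pool.Agent.Results.MP_b8c61a_co.ReverseDuplicate
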